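import Pool.Agent.W104.Irr.Stmts

/-!
Arithmetic lemmas `L2fin`, `B1fin`, `S3fin` for the exact value of `n(p)` (MP_033e98_co).
-/

namespace Pool.Agent.W349.IR

open Finset Pool.Agent.W104.Irr

theorem pg (T U : Finset ℕ) (g : ℕ → ℕ) (hg : ∀ x ∈ T, ∀ y ∈ T, g x = g y → x = y)
    (h : U.card < T.card) : ∃ x ∈ T, g x ∉ U := by
  by_contra hc
  push Not at hc
  have := Finset.card_le_card_of_injOn g (s := T) (t := U) hc
    (fun x hx y hy e => hg x hx y hy e)
  omega

/-- largest free slot -/
theorem big (p S m : ℕ) (U : Finset ℕ) (hm : p ≤ m) (hU : U.card < S - m) :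
    ∃ t : ℕ, m < t ∧ t ≤ S ∧ t ∉ U ∧ S - t ≤ U.card := by
  classical
  have hne : ((Finset.Ioc m S).filter (fun t => t ∉ U)).Nonempty := by
    obtain ⟨x, hx, hxU⟩ := pg (Finset.Ioc m S) U id (fun x _ y _ e => e)
      (by rw [Nat.card_Ioc]; exact hU)
    exact ⟨x, Finset.mem_filter.2 ⟨hx, hxU⟩⟩
  obtain ⟨t, ht, hmax⟩ := Finset.exists_max_image _ id hne
  rw [Finset.mem_filter, Finset.mem_Ioc] at ht
  refine ⟨t, ht.1.1, ht.1.2, ht.2, ?_⟩
  have hsub : Finset.Ioc t S ⊆ U := by
    intro x hx
    rw [Finset.mem_Ioc] at hx
    by_contra hxU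
    have := hmax x (Finset.mem_filter.2 ⟨Finset.mem_Ioc.2 ⟨by omega, hx.2⟩, hxU⟩)
    simp only [id] at this
    omega
  have := Finset.card_le_card hsub
  rw [Nat.card_Ioc] at this
  exact this

theorem s3fin : S3fin := by
  intro p a f R σ U hp haf hfp hU hR hRU haσ hσ
  by_cases h : σ ≤ f
  · exact ⟨p, σ, R, by omega, le_rfl, by omega, by omega, by omega, h, by omega, hRU⟩
  · obtain ⟨x, hx, hxU⟩ := pg (Finset.Ioc a f) U (fun x => R - σ + x)
      (fun x _ y _ e => by omega) (by rw [Nat.card_Ioc]; omega)
    rw [Finset.mem_Ioc] at hx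
    exact ⟨p + x - σ, x, R - σ + x, by omega, by omega, by omega, by omega, hx.1, hx.2, by omega,
      hxU⟩

theorem l2fin : L2fin := by
  intro p a f i cx Sw U haf hfp hU hUp hSw hcx hne
  obtain ⟨D, hD⟩ : ∃ D, cx + a + 1 = p + i + D := ⟨cx + a + 1 - (p + i), by omega⟩
  rcases lt_or_ge Sw f with h1 | h1
  · -- case 1
    by_cases h2 : a + 2 + p - Sw + D ≤ f
    · exact ⟨a + 2, p - Sw + a + 1, a + 2 + p - Sw + D, a + 1, by omega, by omega, by omega,
        by omega, by omega, by omega, by omega, by omega, by omega, by omega⟩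
    · by_cases h3 : a + 2 + p - Sw + D ≤ p
      · -- phi = Sw - D
        exact ⟨Sw - D, p - Sw + a + 1, p, a + 1, by omega, by omega, by omega, by omega, by omega,
          by omega, by omega, by omega, by omega, by omega⟩
      · have hd : Disjoint (Finset.Ioc (a + 1) f) {p} := by
          rw [Finset.disjoint_singleton_right, Finset.mem_Ioc]; omega
        obtain ⟨x, hx, hxU⟩ := pg ((Finset.Ioc (a + 1) f).disjUnion {p} hd) U
          (fun x => x + p - Sw + D)
          (fun x hx y hy e => by
            omega)
          (by rw [Finset.card_disjUnion, Nat.card_Ioc, Finset.card_singleton]; omega)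
        rw [Finset.mem_disjUnion, Finset.mem_Ioc, Finset.mem_singleton] at hx
        refine ⟨x, p - Sw + a + 1, x + p - Sw + D, a + 1, by omega, by omega, by omega, by omega,
          by omega, Or.inr (Or.inr ⟨by omega, hxU⟩), by omega, by omega, by omega, by omega⟩
  · rcases le_or_gt Sw p with h2 | h2
    · by_cases h3 : Sw = p ∧ D = 0
      · have : p + 1 ∉ U := fun h => by have := hUp _ h; omega
        exact ⟨p, a + 2, p + 1, a + 2, by omega, by omega, by omega, by omega, by omega,
          Or.inr (Or.inr ⟨by omega, this⟩), by omega, by omega, by omega, by omega⟩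
      · obtain ⟨y, hy, hyU⟩ := pg (Finset.Ioc a f) U (fun y => p + y + p - Sw + D - (a + 1))
          (fun x hx y hy e => by
            rw [Finset.mem_Ioc] at hx hy
            omega)
          (by rw [Nat.card_Ioc]; omega)
        rw [Finset.mem_Ioc] at hy
        exact ⟨p, y + p - Sw, p + y + p - Sw + D - (a + 1), y, by omega, by omega, by omega,
          by omega, by omega, Or.inr (Or.inr ⟨by omega, hyU⟩), by omega, by omega, by omega,
          by omega⟩
    · -- Sw > p
      obtain ⟨Y, hY1, hY2, hYU, hr⟩ : ∃ t : ℕ, (p < t ∧ Sw < t + p) ∧ t ≤ Sw ∧ t ∉ U ∧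
          Sw - t ≤ U.card := by
        rcases le_or_gt Sw (2 * p) with h3 | h3
        · have hp1 : p + 1 ∉ U := fun h => by have := hUp _ h; omega
          have hne : ((Finset.Ioc p Sw).filter (fun t => t ∉ U)).Nonempty :=
            ⟨p + 1, Finset.mem_filter.2 ⟨Finset.mem_Ioc.2 ⟨by omega, by omega⟩, hp1⟩⟩
          obtain ⟨t, ht, hmax⟩ := Finset.exists_max_image _ id hne
          rw [Finset.mem_filter, Finset.mem_Ioc] at ht
          refine ⟨t, ⟨ht.1.1, by omega⟩, ht.1.2, ht.2, ?_⟩
          have hsub : Finset.Ioc t Sw ⊆ U := by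
            intro x hx
            rw [Finset.mem_Ioc] at hx
            by_contra hxU
            have := hmax x (Finset.mem_filter.2 ⟨Finset.mem_Ioc.2 ⟨by omega, hx.2⟩, hxU⟩)
            simp only [id] at this
            omega
          have := Finset.card_le_card hsub
          rw [Nat.card_Ioc] at this
          exact this
        · obtain ⟨t, h4, h5, h6, h7⟩ := big p Sw (Sw - p) U (by omega) (by omega)
          exact ⟨t, by omega, h5, h6, h7⟩
      obtain ⟨r, hr'⟩ : ∃ r, Sw = Y + r := ⟨Sw - Y, by omega⟩
      by_cases h4 : D ≤ r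
      · exact ⟨r + a + 1 - D, p - r, p, Y, by omega, by omega, by omega, by omega, by omega,
          by omega, Or.inr (Or.inr ⟨by omega, hYU⟩), by omega, by omega, by omega⟩
      · classical
        have hd : Disjoint (Finset.Ioc a f) {p} := by
          rw [Finset.disjoint_singleton_right, Finset.mem_Ioc]; omega
        obtain ⟨x, hx, hxU⟩ := pg ((Finset.Ioc a f).disjUnion {p} hd) (insert Y U)
          (fun x => x + p - r + D - (a + 1))
          (fun x hx y hy e => by
            rw [Finset.mem_disjUnion, Finset.mem_Ioc, Finset.mem_singleton] at hx hy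
            omega)
          (by
            have := Finset.card_insert_le Y U
            rw [Finset.card_disjUnion, Nat.card_Ioc, Finset.card_singleton]; omega)
        rw [Finset.mem_disjUnion, Finset.mem_Ioc, Finset.mem_singleton] at hx
        rw [Finset.mem_insert, not_or] at hxU
        refine ⟨x, p - r, x + p - r + D - (a + 1), Y, by omega, by omega, by omega, by omega,
          by omega, Or.inr (Or.inr ⟨by omega, hxU.2⟩), Or.inr (Or.inr ⟨by omega, hYU⟩),
          hxU.1, by omega, by omega⟩

theorem b1fin : B1fin := by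
  intro p a f R γ U hp haf hfp hU hUp hR hRU hRU' hγ
  rcases le_or_gt (γ + (f - a)) (p + 1) with h1 | h1
  · obtain ⟨E, hE, hEU⟩ := pg (Finset.Ioc 0 (f - a - 1)) U (fun E => R + γ + E - p)
      (fun x hx y hy e => by omega)
      (by rw [Nat.card_Ioc]; omega)
    rw [Finset.mem_Ioc] at hE
    exact ⟨p - γ + a + 1, γ + E, a + 1, a + 1 + E, R + γ + E - p, by omega, by omega, by omega,
      by omega, by omega, by omega, by omega, Or.inl (by omega), by omega,
      Or.inr ⟨by omega, hEU⟩, by omega, by omega, by omega⟩
  rcases lt_trichotomy γ p with h2 | h2 | h2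
  · exact ⟨p - γ + a + 1, p, a + 1, p - γ + a + 1, R, by omega, by omega, by omega, by omega,
      by omega, by omega, by omega, Or.inl (by omega), by omega, Or.inr ⟨by omega, hRU⟩, by omega,
      by omega, by omega⟩
  · exact ⟨a + 2, p - 1, a + 2, a + 1, R - 1, by omega, by omega, by omega, by omega,
      by omega, by omega, by omega, Or.inl (by omega), by omega, Or.inr ⟨by omega, hRU'⟩, by omega,
      by omega, by omega⟩
  · rcases le_or_gt (γ + 1) (p + (f - a)) with h3 | h3
    · exact ⟨a + 1, p, a + 1 + (γ - p), a + 1, R, by omega, by omega, by omega, by omega,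
        by omega, by omega, by omega, Or.inl (by omega), by omega, Or.inr ⟨by omega, hRU⟩,
        by omega, by omega, by omega⟩
    · obtain ⟨t, h4, h5, h6, h7⟩ := big p γ (max p (γ - p)) U (le_max_left _ _) (by omega)
      have h8 : p < t := by omega
      have h9 : γ - p < t := by omega
      obtain ⟨r, hr⟩ : ∃ r, γ = t + r := ⟨γ - t, by omega⟩
      rcases le_or_gt p (f + r) with h10 | h10
      · by_cases h11 : t = R
        · exact ⟨p - r, p - 1, t, p - 1 - r, R - 1, by omega, by omega, by omega, by omega,
            by omega, by omega, by omega, Or.inr ⟨h8, h6⟩, by omega, Or.inr ⟨by omega, hRU'⟩,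
            by omega, by omega, by omega⟩
        · exact ⟨p - r, p, t, p - r, R, by omega, by omega, by omega, by omega,
            by omega, by omega, by omega, Or.inr ⟨h8, h6⟩, by omega, Or.inr ⟨by omega, hRU⟩,
            by omega, by omega, by omega⟩
      · by_cases h11 : R + (a + 1) + r = 2 * p
        · obtain ⟨y, hy, hyU⟩ := pg (Finset.Ioc (a + 1) f) U (fun y => R + y + r - p)
            (fun x hx y hy e => by omega)
            (by rw [Nat.card_Ioc]; omega)
          rw [Finset.mem_Ioc] at hy
          exact ⟨p - r, y + r, t, y, R + y + r - p, by omega, by omega, by omega, by omega,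
            by omega, by omega, by omega, Or.inr ⟨h8, h6⟩, by omega, Or.inr ⟨by omega, hyU⟩,
            by omega, by omega, by omega⟩
        · classical
          obtain ⟨y, hy, hyU⟩ := pg (Finset.Ioc a f) (insert t U) (fun y => R + y + r - p)
            (fun x hx y hy e => by omega)
            (by
              have := Finset.card_insert_le t U
              rw [Nat.card_Ioc]; omega)
          rw [Finset.mem_Ioc] at hy
          rw [Finset.mem_insert, not_or] at hyU
          exact ⟨p - r, y + r, t, y, R + y + r - p, by omega, by omega, by omega, by omega,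
            by omega, by omega, by omega, Or.inr ⟨h8, h6⟩, by omega, Or.inr ⟨by omega, hyU.2⟩,
            by omega, Ne.symm hyU.1, by omega⟩

end Pool.Agent.W349.IR
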