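import Pool.Agent.W104.Irr.Stmts

/-!
Lemma `E3` for the exact value of `n(p)` (MP_033e98_co).
-/

namespace Pool.Agent.W349.IR

open Finset Pool.Agent.W104.Irr

theorem e3aux {V : Type} [DecidableEq V] (P : Finset V) (sl d : V → ℕ) (p A B : ℕ)
    (EE : Finset ℕ) (hE : EE.card ≤ 4) (hinj : Set.InjOn sl P)
    (hs : ∑ v ∈ P, (d v - 2) + 5 ≤ p)
    (h : ∀ v ∈ P, (if A < p + sl v ∧ sl v ≤ A then 1 else 0) +
      (if B < p + sl v ∧ sl v ≤ B then 1 else 0) ≤ (d v - 2) + (if sl v ∈ EE then 1 else 0)) :
    (P.filter (fun v => A < p + sl v ∧ sl v ≤ A)).card +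
      (P.filter (fun v => B < p + sl v ∧ sl v ≤ B)).card + 1 ≤ p := by
  have h1 : (P.filter (fun v => sl v ∈ EE)).card ≤ EE.card := by
    apply Finset.card_le_card_of_injOn sl
    · intro v hv
      rw [Finset.mem_coe, Finset.mem_filter] at hv
      exact hv.2
    · intro x hx y hy e
      rw [Finset.mem_coe, Finset.mem_filter] at hx hy
      exact hinj hx.1 hy.1 e
  have h2 := Finset.sum_le_sum h
  rw [Finset.sum_add_distrib, Finset.sum_add_distrib, ← Finset.card_filter, ← Finset.card_filter,
    ← Finset.card_filter] at h2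
  omega

theorem e3 : E3 := by
  intro V _ P sl d p A B hinj hP hd hsl hs hA hB hAB
  have hp : 5 ≤ p := by omega
  have key : (P.filter (fun v => A < p + sl v ∧ sl v ≤ A)).card +
      (P.filter (fun v => B < p + sl v ∧ sl v ≤ B)).card + 1 ≤ p := by
    rcases le_or_gt (B + 3) (2 * p) with h1 | h1
    · have hdis : Disjoint (P.filter (fun v => A < p + sl v ∧ sl v ≤ A))
          (P.filter (fun v => B < p + sl v ∧ sl v ≤ B)) := by
        rw [Finset.disjoint_filter]
        intro v _ h2 h3
        omega
      rw [← Finset.card_union_of_disjoint hdis]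
      have : (P.filter (fun v => A < p + sl v ∧ sl v ≤ A) ∪
          P.filter (fun v => B < p + sl v ∧ sl v ≤ B)).card ≤ P.card := by
        apply Finset.card_le_card
        exact Finset.union_subset (Finset.filter_subset _ _) (Finset.filter_subset _ _)
      omega
    · rcases le_or_gt (2 * p) B with h2 | h2
      · apply e3aux P sl d p A B {2 * p - 2, 2 * p - 1, 2 * p} _ hinj hs
        · intro v hv
          have h3 := hd v hv
          have h4 := hsl v hv
          simp only [Finset.mem_insert, Finset.mem_singleton]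
          rcases Nat.lt_or_ge (d v) 4 with h5 | h5
          · rcases (by omega : d v = 2 ∨ d v = 3) with h6 | h6 <;> rw [h6] at h4 <;>
              split_ifs <;> omega
          · split_ifs <;> omega
        · exact (Finset.card_le_three).trans (by norm_num)
      · apply e3aux P sl d p A B {p - 1, p, 2 * p - 2, 2 * p - 1} _ hinj hs
        · intro v hv
          have h3 := hd v hv
          have h4 := hsl v hv
          simp only [Finset.mem_insert, Finset.mem_singleton]
          rcases Nat.lt_or_ge (d v) 4 with h5 | h5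
          · rcases (by omega : d v = 2 ∨ d v = 3) with h6 | h6 <;> rw [h6] at h4 <;>
              split_ifs <;> omega
          · split_ifs <;> omega
        · exact Finset.card_le_four
  have hc : (((P.filter (fun v => A < p + sl v ∧ sl v ≤ A)).image (fun v => p + sl v - A)) ∪
      ((P.filter (fun v => B < p + sl v ∧ sl v ≤ B)).image (fun v => p + sl v - B))).card <
      (Finset.Icc 1 p).card := by
    rw [Nat.card_Icc]
    have h1 := Finset.card_union_le
      ((P.filter (fun v => A < p + sl v ∧ sl v ≤ A)).image (fun v => p + sl v - A))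
      ((P.filter (fun v => B < p + sl v ∧ sl v ≤ B)).image (fun v => p + sl v - B))
    have h2 := Finset.card_image_le (s := P.filter (fun v => A < p + sl v ∧ sl v ≤ A))
      (f := fun v => p + sl v - A)
    have h3 := Finset.card_image_le (s := P.filter (fun v => B < p + sl v ∧ sl v ≤ B))
      (f := fun v => p + sl v - B)
    omega
  obtain ⟨α, hα, hα'⟩ := Finset.exists_mem_notMem_of_card_lt_card hc
  rw [Finset.mem_Icc] at hα
  rw [Finset.mem_union, not_or, Finset.mem_image, Finset.mem_image] at hα'
  refine ⟨α, hα.1, hα.2, fun v hv => ⟨fun h => hα'.1 ⟨v, ?_, ?_⟩, fun h => hα'.2 ⟨v, ?_, ?_⟩⟩⟩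
  · rw [Finset.mem_filter]
    exact ⟨hv, by omega, by omega⟩
  · omega
  · rw [Finset.mem_filter]
    exact ⟨hv, by omega, by omega⟩
  · omega

end Pool.Agent.W349.IR
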